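import Pool.Agent.H23.CR.Stm

set_option autoImplicit false

namespace Pool.Agent.H31.CR

open Finset Filter Pool.Agent.H999R2.KSat Pool.Agent.H320R2.CT Pool.Agent.H23.CR

open Classical in
/-- resampled edges -/
noncomputable def rsm {n m : ℕ} (I : Finset (Fin n)) (F : Fin m → Ed n)
    (G : Fin m → {e : Ed n // av I e}) : Fin m → Ed n :=
  fun j => if av I (F j) then (G j : Ed n) else F j

lemma ad_rsm {n m : ℕ} (I : Finset (Fin n)) (F : Fin m → Ed n)
    (G : Fin m → {e : Ed n // av I e}) {u v : Fin n} (hu : u ∈ I) :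
    ad (rsm I F G) u v ↔ ad F u v := by
  unfold ad
  have key : ∀ j, (((rsm I F G j).1.1 = u ∧ (rsm I F G j).1.2 = v) ∨
      ((rsm I F G j).1.1 = v ∧ (rsm I F G j).1.2 = u)) ↔
      (((F j).1.1 = u ∧ (F j).1.2 = v) ∨ ((F j).1.1 = v ∧ (F j).1.2 = u)) := by
    intro j
    by_cases h : av I (F j)
    · have e : rsm I F G j = (G j : Ed n) := by unfold rsm; rw [if_pos h]
      rw [e]
      have hG := (G j).2
      constructor
      · rintro (⟨h1, h2⟩ | ⟨h1, h2⟩)
        · exact absurd (h1 ▸ hu) hG.1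
        · exact absurd (h2 ▸ hu) hG.2
      · rintro (⟨h1, h2⟩ | ⟨h1, h2⟩)
        · exact absurd (h1 ▸ hu) h.1
        · exact absurd (h2 ▸ hu) h.2
    · have e : rsm I F G j = F j := by unfold rsm; rw [if_neg h]
      rw [e]
  exact exists_congr key

lemma isK_rsm {n m : ℕ} (w : ℕ) (I : Finset (Fin n)) (F : Fin m → Ed n)
    (G : Fin m → {e : Ed n // av I e}) : IsK w (rsm I F G) I ↔ IsK w F I := by
  unfold IsK
  constructor
  · rintro ⟨h1, h2, h3⟩
    refine ⟨h1, fun u hu v hv h => h2 u hu v hv ((ad_rsm I F G hu).2 h), fun v hv hvI => ?_⟩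
    obtain ⟨u, hu, huv, h⟩ := h3 v hv hvI
    exact ⟨u, hu, huv, (ad_rsm I F G hu).1 h⟩
  · rintro ⟨h1, h2, h3⟩
    refine ⟨h1, fun u hu v hv h => h2 u hu v hv ((ad_rsm I F G hu).1 h), fun v hv hvI => ?_⟩
    obtain ⟨u, hu, huv, h⟩ := h3 v hv hvI
    exact ⟨u, hu, huv, (ad_rsm I F G hu).2 h⟩

/-- the extended colouring -/
lemma ext_col {n m k w : ℕ} (I : Finset (Fin n)) (F : Fin m → Ed n)
    (G : Fin m → {e : Ed n // av I e}) (hK : IsK w F I) (σ : Co n k)
    (hσ : ∀ j, av I (F j) → pr σ (G j).1) :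
    (SolC (rsm I F G) : Set (Co n (k + 1))).Nonempty := by
  classical
  refine ⟨fun v => if v ∈ I then Fin.last k else (σ v).castSucc, fun j => ?_⟩
  unfold pr
  by_cases h : av I (F j)
  · have e : rsm I F G j = (G j : Ed n) := by unfold rsm; rw [if_pos h]
    rw [e]
    have hG := (G j).2
    simp only [if_neg hG.1, if_neg hG.2]
    intro h2
    exact hσ j h (Fin.castSucc_injective _ h2)
  · have e : rsm I F G j = F j := by unfold rsm; rw [if_neg h]
    rw [e]
    by_cases h1 : (F j).1.1 ∈ I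
    · have h2 : (F j).1.2 ∉ I := fun h2 => hK.2.1 _ h1 _ h2 ⟨j, Or.inl ⟨rfl, rfl⟩⟩
      simp only [if_pos h1, if_neg h2]
      exact (Fin.castSucc_lt_last _).ne'
    · have h2 : (F j).1.2 ∈ I := by
        by_contra h2
        exact h ⟨h1, h2⟩
      simp only [if_neg h1, if_pos h2]
      exact (Fin.castSucc_lt_last _).ne

lemma exists_av {n : ℕ} (I : Finset (Fin n)) (h : I.card + 2 ≤ n) :
    Nonempty {e : Ed n // av I e} := by
  classical
  have h1 : 1 < (univ \ I).card := by
    rw [card_sdiff_of_subset (subset_univ _), card_univ, Fintype.card_fin]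
    omega
  obtain ⟨a, ha, b, hb, hab⟩ := one_lt_card.1 h1
  exact ⟨⟨⟨(a, b), hab⟩, (mem_sdiff.1 ha).2, (mem_sdiff.1 hb).2⟩⟩

theorem p_DEC (hRS : S_RS) (hRES : S_RES) (hREL : S_REL) : S_DEC := by
  classical
  intro n m w k I hI hk
  haveI := exists_av I hI
  rw [hRS (Ed n) (av I) m
    (fun F => ind (IsK w F I ∧ (SolC F : Set (Co n (k + 1))).Nonempty))]
  refine E_mono fun F => ?_
  by_cases hK : IsK w F I
  · rw [ind_true hK, one_mul]
    -- enumeration of the resampled coordinates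
    obtain ⟨J, hJ⟩ : ∃ J : Finset (Fin m), J = univ.filter (fun j => av I (F j)) := ⟨_, rfl⟩
    have hs : rem F I = J.card := by rw [hJ]; rfl
    have hι : Function.Injective (fun i : Fin J.card => (J.equivFin.symm i : Fin m)) :=
      fun a b hab => J.equivFin.symm.injective (Subtype.ext hab)
    have h1 := hREL n k J.card I hk
    rw [hs]
    refine h1.trans ?_
    rw [← hRES {e : Ed n // av I e} m J.card _ hι
      (fun G : Fin J.card → {e : Ed n // av I e} => ind (∃ σ : Co n k, ∀ i, pr σ (G i).1))]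
    refine E_mono fun G => ind_mono ?_
    rintro ⟨σ, hσ⟩
    refine ⟨(isK_rsm w I F G).2 hK, ext_col I F G hK σ ?_⟩
    intro j hj
    have hjJ : j ∈ J := by rw [hJ]; simp [hj]
    have := hσ (J.equivFin ⟨j, hjJ⟩)
    simpa using this
  · rw [ind_false hK, zero_mul]
    exact E_nonneg fun G => ind_nonneg _

end Pool.Agent.H31.CR
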