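import Pool.Agent.H23.CR.Stm

set_option autoImplicit false

namespace Pool.Agent.H31.CR

open Finset Filter Pool.Agent.H999R2.KSat Pool.Agent.H320R2.CT Pool.Agent.H23.CR

lemma sumEd {n : ℕ} (g : Fin n × Fin n → ℝ) :
    ∑ e : Ed n, g e.1 = ∑ p ∈ univ.filter (fun p : Fin n × Fin n => p.1 ≠ p.2), g p :=
  (Finset.sum_subtype _ (by simp) g).symm

lemma sumEd_le {n : ℕ} (g : Fin n × Fin n → ℝ) (hg : ∀ p, 0 ≤ g p) :
    ∑ e : Ed n, g e.1 ≤ ∑ p : Fin n × Fin n, g p := by
  rw [sumEd]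
  exact sum_le_sum_of_subset_of_nonneg (filter_subset _ _) fun p _ _ => hg p

lemma sum_off {n : ℕ} (S : Finset (Fin n)) :
    ∑ e : Ed n, ind (e.1.1 ∈ S ∧ e.1.2 ∈ S) = (S.card : ℝ) ^ 2 - S.card := by
  classical
  rw [sumEd (fun p => ind (p.1 ∈ S ∧ p.2 ∈ S))]
  have h1 : ∑ p ∈ univ.filter (fun p : Fin n × Fin n => p.1 ≠ p.2), ind (p.1 ∈ S ∧ p.2 ∈ S) =
      ((S.offDiag.card : ℕ) : ℝ) := by
    have h2 : ∀ p : Fin n × Fin n, ind (p.1 ∈ S ∧ p.2 ∈ S) =
        if (p.1 ∈ S ∧ p.2 ∈ S) then (1:ℝ) else 0 := by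
      intro p
      by_cases h : p.1 ∈ S ∧ p.2 ∈ S
      · rw [ind_true h, if_pos h]
      · rw [ind_false h, if_neg h]
    rw [sum_congr rfl fun p _ => h2 p, ← sum_filter, filter_filter, sum_const, nsmul_eq_mul,
      mul_one]
    congr 2
    ext p
    simp only [mem_filter, mem_univ, true_and, mem_offDiag]
    tauto
  rw [h1, offDiag_card, Nat.cast_sub (Nat.le_mul_self _)]
  push_cast
  ring

lemma cardEd (n : ℕ) : (Fintype.card (Ed n) : ℝ) = (n : ℝ) ^ 2 - n := by
  have h := sum_off (univ : Finset (Fin n))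
  rw [card_univ, Fintype.card_fin] at h
  rw [← h]
  simp [ind]

lemma card_lt {n w : ℕ} (hw : w ≤ n) : (univ.filter (fun x : Fin n => x.val < w)).card = w := by
  have h : (univ.filter (fun x : Fin n => x.val < w)).map Fin.valEmbedding = range w := by
    ext a
    simp only [Finset.mem_map, mem_filter, mem_univ, true_and, Fin.valEmbedding_apply, mem_range]
    constructor
    · rintro ⟨x, hx, rfl⟩; exact hx
    · intro ha; exact ⟨⟨a, by omega⟩, ha, rfl⟩
  rw [← card_map Fin.valEmbedding, h, card_range]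

lemma card_ge {n w : ℕ} (hw : w ≤ n) :
    (univ.filter (fun x : Fin n => w ≤ x.val)).card = n - w := by
  have h := card_filter_add_card_filter_not (s := (univ : Finset (Fin n)))
    (p := fun x : Fin n => x.val < w)
  rw [card_lt hw, card_univ, Fintype.card_fin] at h
  have h2 : univ.filter (fun x : Fin n => ¬ x.val < w) = univ.filter (fun x : Fin n => w ≤ x.val) := by
    ext x; simp
  rw [h2] at h
  omega

lemma E_off {n : ℕ} (hn : 2 ≤ n) (S : Finset (Fin n)) :
    E (fun e : Ed n => ind (e.1.1 ∈ S ∧ e.1.2 ∈ S)) ≤ (S.card : ℝ) ^ 2 / (n : ℝ) ^ 2 := by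
  unfold E
  rw [sum_off, cardEd]
  have hn' : (2 : ℝ) ≤ n := by exact_mod_cast hn
  have hS : (S.card : ℝ) ≤ n := by
    have := card_le_univ S
    rw [Fintype.card_fin] at this
    exact_mod_cast this
  have h0 : (0 : ℝ) ≤ S.card := by positivity
  rw [div_le_div_iff₀ (by nlinarith) (by positivity)]
  nlinarith [mul_nonneg (mul_nonneg h0 (by linarith : (0:ℝ) ≤ n)) (sub_nonneg.2 hS)]

/-- `e'` joins `y` to a vertex below `w` -/
def R {n : ℕ} (w : ℕ) (y : Fin n) (e : Ed n) : Prop :=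
  (e.1.1.val < w ∧ e.1.2 = y) ∨ (e.1.2.val < w ∧ e.1.1 = y)

def CC {n : ℕ} (w : ℕ) (e e' : Ed n) : Prop :=
  (e.1.1.val < w ∧ w ≤ e.1.2.val ∧ R w e.1.1 e') ∨ (e.1.2.val < w ∧ w ≤ e.1.1.val ∧ R w e.1.2 e')

lemma sum_lt {n w : ℕ} (hw : w ≤ n) : ∑ x : Fin n, ind (x.val < w) = w := by
  classical
  have h2 : ∀ x : Fin n, ind (x.val < w) = if x.val < w then (1:ℝ) else 0 := by
    intro p
    by_cases h : p.val < w
    · rw [ind_true h, if_pos h]
    · rw [ind_false h, if_neg h]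
  rw [sum_congr rfl fun x _ => h2 x, ← sum_filter, sum_const, card_lt hw]
  simp

lemma sum_eq1 {n : ℕ} (y : Fin n) : ∑ x : Fin n, ind (x = y) = 1 := by
  classical
  have h2 : ∀ x : Fin n, ind (x = y) = if x = y then (1:ℝ) else 0 := by
    intro p
    by_cases h : p = y
    · rw [ind_true h, if_pos h]
    · rw [ind_false h, if_neg h]
  rw [sum_congr rfl fun x _ => h2 x]
  simp

lemma E_R {n w : ℕ} (hn : 2 ≤ n) (hw : w ≤ n) (y : Fin n) :
    E (fun e : Ed n => ind (R w y e)) ≤ 2 * w / ((n : ℝ) ^ 2 - n) := by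
  unfold E
  rw [cardEd]
  have hn' : (2 : ℝ) ≤ n := by exact_mod_cast hn
  apply div_le_div_of_nonneg_right _ (by nlinarith)
  have h1 : ∀ e : Ed n, ind (R w y e) ≤
      ind (e.1.1.val < w) * ind (e.1.2 = y) + ind (e.1.2.val < w) * ind (e.1.1 = y) := by
    intro e
    rw [← ind_and, ← ind_and]
    exact ind_or_le _ _
  refine (sum_le_sum fun e _ => h1 e).trans ?_
  refine (sumEd_le (fun p : Fin n × Fin n => ind (p.1.val < w) * ind (p.2 = y) +
    ind (p.2.val < w) * ind (p.1 = y)) (fun p => add_nonneg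
      (mul_nonneg (ind_nonneg _) (ind_nonneg _)) (mul_nonneg (ind_nonneg _) (ind_nonneg _)))).trans ?_
  rw [Fintype.sum_prod_type]
  simp only [sum_add_distrib, ← mul_sum, ← sum_mul]
  rw [sum_eq1, sum_lt hw]
  apply le_of_eq
  ring

lemma E_lt1 {n w : ℕ} (hn : 2 ≤ n) (hw : w ≤ n) :
    E (fun e : Ed n => ind (e.1.1.val < w)) ≤ w / ((n : ℝ) - 1) := by
  unfold E
  rw [cardEd]
  have hn' : (2 : ℝ) ≤ n := by exact_mod_cast hn
  have h : ∑ e : Ed n, ind (e.1.1.val < w) ≤ w * n := by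
    refine (sumEd_le (fun p : Fin n × Fin n => ind (p.1.val < w)) fun p => ind_nonneg _).trans ?_
    rw [Fintype.sum_prod_type]
    simp only [sum_const, card_univ, Fintype.card_fin, nsmul_eq_mul, ← mul_sum]
    rw [sum_lt hw, mul_comm]
  rw [div_le_div_iff₀ (by nlinarith) (by linarith)]
  have := mul_le_mul_of_nonneg_right h (by linarith : (0:ℝ) ≤ n - 1)
  nlinarith

lemma E_lt2 {n w : ℕ} (hn : 2 ≤ n) (hw : w ≤ n) :
    E (fun e : Ed n => ind (e.1.2.val < w)) ≤ w / ((n : ℝ) - 1) := by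
  unfold E
  rw [cardEd]
  have hn' : (2 : ℝ) ≤ n := by exact_mod_cast hn
  have h : ∑ e : Ed n, ind (e.1.2.val < w) ≤ w * n := by
    refine (sumEd_le (fun p : Fin n × Fin n => ind (p.2.val < w)) fun p => ind_nonneg _).trans ?_
    rw [Fintype.sum_prod_type]
    simp only [sum_lt hw, sum_const, card_univ, Fintype.card_fin, nsmul_eq_mul]
    rw [mul_comm]
  rw [div_le_div_iff₀ (by nlinarith) (by linarith)]
  have := mul_le_mul_of_nonneg_right h (by linarith : (0:ℝ) ≤ n - 1)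
  nlinarith

lemma E_CC {n w : ℕ} (hn : 2 ≤ n) (hw : w ≤ n) :
    E (fun e : Ed n => E (fun e' : Ed n => ind (CC w e e'))) ≤ 16 * (w : ℝ) ^ 2 / (n : ℝ) ^ 3 := by
  have hn' : (2 : ℝ) ≤ n := by exact_mod_cast hn
  set c : ℝ := 2 * w / ((n : ℝ) ^ 2 - n) with hc
  have hc0 : 0 ≤ c := by
    rw [hc]
    apply div_nonneg (by positivity) (by nlinarith)
  have h1 : ∀ e : Ed n, E (fun e' : Ed n => ind (CC w e e')) ≤
      ind (e.1.1.val < w) * c + ind (e.1.2.val < w) * c := by
    intro e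
    have h2 : ∀ e' : Ed n, ind (CC w e e') ≤
        ind (e.1.1.val < w) * ind (R w e.1.1 e') + ind (e.1.2.val < w) * ind (R w e.1.2 e') := by
      intro e'
      rw [← ind_and, ← ind_and]
      refine (ind_or_le _ _).trans (add_le_add (ind_mono ?_) (ind_mono ?_))
      · rintro ⟨a, -, b⟩; exact ⟨a, b⟩
      · rintro ⟨a, -, b⟩; exact ⟨a, b⟩
    refine (E_mono h2).trans ?_
    rw [E_add, E_mul_left, E_mul_left]
    exact add_le_add (mul_le_mul_of_nonneg_left (E_R hn hw _) (ind_nonneg _))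
      (mul_le_mul_of_nonneg_left (E_R hn hw _) (ind_nonneg _))
  refine (E_mono h1).trans ?_
  rw [E_add, E_mul_right, E_mul_right]
  have h3 := mul_le_mul_of_nonneg_right (E_lt1 hn hw) hc0
  have h4 := mul_le_mul_of_nonneg_right (E_lt2 hn hw) hc0
  refine (add_le_add h3 h4).trans ?_
  have e1 : (w : ℝ) / ((n : ℝ) - 1) * c + (w : ℝ) / ((n : ℝ) - 1) * c =
      4 * (w : ℝ) ^ 2 / (n * ((n : ℝ) - 1) ^ 2) := by
    rw [hc]
    have h5 : (n : ℝ) ^ 2 - n = n * (n - 1) := by ring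
    have h6 : (n : ℝ) - 1 ≠ 0 := by linarith
    have h7 : (n : ℝ) ≠ 0 := by linarith
    rw [h5]
    field_simp
    ring
  rw [e1, div_le_div_iff₀ (by
    have : (0:ℝ) < n - 1 := by linarith
    positivity) (by positivity)]
  have h8 : (n : ℝ) ^ 2 ≤ 4 * ((n : ℝ) - 1) ^ 2 := by nlinarith
  have h9 : 0 ≤ 4 * (w : ℝ) ^ 2 * n := by positivity
  nlinarith [mul_le_mul_of_nonneg_left h8 h9]

lemma E_one {X : Type} [Fintype X] [Nonempty X] {m : ℕ} (j : Fin m) (φ : X → ℝ) :
    E (fun F : Fin m → X => φ (F j)) = E φ := by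
  rw [E_update j]
  have : ∀ F : Fin m → X, E (fun y : X => φ (Function.update F j y j)) = E φ := by
    intro F
    exact E_congr fun y => by rw [Function.update_self]
  rw [E_congr this, E_const]

lemma E_two {X : Type} [Fintype X] [Nonempty X] {m : ℕ} {i j : Fin m} (hij : i ≠ j)
    (φ : X → X → ℝ) :
    E (fun F : Fin m → X => φ (F j) (F i)) = E (fun x => E (fun y => φ x y)) := by
  rw [E_update i]
  have : ∀ F : Fin m → X, E (fun y : X => φ (Function.update F i y j) (Function.update F i y i)) =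
      E (fun y => φ (F j) y) := by
    intro F
    exact E_congr fun y => by rw [Function.update_self, Function.update_of_ne hij.symm]
  rw [E_congr this]
  exact E_one j (fun x => E (fun y => φ x y))

theorem p_MOM : S_MOM := by
  classical
  intro n m w hn hw K hK
  have hn' : (2 : ℝ) ≤ n := by exact_mod_cast hn
  haveI : Nonempty (Ed n) := ⟨⟨(⟨0, by omega⟩, ⟨1, by omega⟩), by simp⟩⟩
  set A : Finset (Fin n) := univ.filter (fun x : Fin n => w ≤ x.val) with hA
  set B : Finset (Fin n) := univ.filter (fun x : Fin n => x.val < w) with hB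
  have hrem : ∀ F : Fin m → Ed n, (rem F (K F) : ℝ) = ∑ j, ind (av (K F) (F j)) := by
    intro F
    unfold rem
    rw [card_filter]
    push_cast
    refine sum_congr rfl fun j _ => ?_
    by_cases h : av (K F) (F j)
    · rw [ind_true h, if_pos h]
    · rw [ind_false h, if_neg h]
  have hpt : ∀ (F : Fin m → Ed n) (j : Fin m), ind (av (K F) (F j)) ≤
      ind ((F j).1.1 ∈ A ∧ (F j).1.2 ∈ A) + ind ((F j).1.1 ∈ B ∧ (F j).1.2 ∈ B) +
        ∑ i ∈ univ.erase j, ind (CC w (F j) (F i)) := by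
    intro F j
    have p1 := ind_nonneg ((F j).1.1 ∈ A ∧ (F j).1.2 ∈ A)
    have p2 := ind_nonneg ((F j).1.1 ∈ B ∧ (F j).1.2 ∈ B)
    have p3 : 0 ≤ ∑ i ∈ univ.erase j, ind (CC w (F j) (F i)) :=
      sum_nonneg fun i _ => ind_nonneg _
    by_cases hav : av (K F) (F j)
    · rw [ind_true hav]
      obtain ⟨k1, k2, k3⟩ := hK F
      rcases lt_or_ge (F j).1.1.val w with hx | hx <;> rcases lt_or_ge (F j).1.2.val w with hy | hy
      · have : ind ((F j).1.1 ∈ B ∧ (F j).1.2 ∈ B) = 1 := ind_true (by simp [hB, hx, hy])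
        linarith
      · obtain ⟨u, hu, hux, i, hi⟩ := k3 _ hx hav.1
        have huw := k1 u hu
        have hij : i ≠ j := by
          rintro rfl
          rcases hi with ⟨h1, h2⟩ | ⟨h1, h2⟩
          · rw [h2] at hy; omega
          · rw [h2] at hy; omega
        have hC : CC w (F j) (F i) := by
          left
          refine ⟨hx, hy, ?_⟩
          rcases hi with ⟨h1, h2⟩ | ⟨h1, h2⟩
          · left; exact ⟨by rw [h1]; exact huw, h2⟩
          · right; exact ⟨by rw [h2]; exact huw, h1⟩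
        have : 1 ≤ ∑ i ∈ univ.erase j, ind (CC w (F j) (F i)) := by
          rw [← ind_true hC]
          exact single_le_sum (f := fun i => ind (CC w (F j) (F i)))
            (fun i _ => ind_nonneg _) (mem_erase.2 ⟨hij, mem_univ i⟩)
        linarith
      · obtain ⟨u, hu, hux, i, hi⟩ := k3 _ hy hav.2
        have huw := k1 u hu
        have hij : i ≠ j := by
          rintro rfl
          rcases hi with ⟨h1, h2⟩ | ⟨h1, h2⟩
          · rw [h1] at hx; omega
          · rw [h1] at hx; omega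
        have hC : CC w (F j) (F i) := by
          right
          refine ⟨hy, hx, ?_⟩
          rcases hi with ⟨h1, h2⟩ | ⟨h1, h2⟩
          · left; exact ⟨by rw [h1]; exact huw, h2⟩
          · right; exact ⟨by rw [h2]; exact huw, h1⟩
        have : 1 ≤ ∑ i ∈ univ.erase j, ind (CC w (F j) (F i)) := by
          rw [← ind_true hC]
          exact single_le_sum (f := fun i => ind (CC w (F j) (F i)))
            (fun i _ => ind_nonneg _) (mem_erase.2 ⟨hij, mem_univ i⟩)
        linarith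
      · have : ind ((F j).1.1 ∈ A ∧ (F j).1.2 ∈ A) = 1 := ind_true (by simp [hA, hx, hy])
        linarith
    · rw [ind_false hav]
      linarith
  have hAc : (A.card : ℝ) = (n : ℝ) - w := by
    rw [hA, card_ge hw, Nat.cast_sub hw]
  have hBc : (B.card : ℝ) = w := by rw [hB, card_lt hw]
  rw [E_congr hrem]
  refine (E_mono fun F => sum_le_sum fun j _ => hpt F j).trans ?_
  rw [E_sum]
  have hj : ∀ j : Fin m, E (fun F : Fin m → Ed n => ind ((F j).1.1 ∈ A ∧ (F j).1.2 ∈ A) +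
      ind ((F j).1.1 ∈ B ∧ (F j).1.2 ∈ B) + ∑ i ∈ univ.erase j, ind (CC w (F j) (F i))) ≤
      ((n : ℝ) - w) ^ 2 / n ^ 2 + (w : ℝ) ^ 2 / n ^ 2 + 16 * m * (w : ℝ) ^ 2 / n ^ 3 := by
    intro j
    rw [E_add, E_add, E_sum]
    have a1 : E (fun F : Fin m → Ed n => ind ((F j).1.1 ∈ A ∧ (F j).1.2 ∈ A)) ≤
        ((n : ℝ) - w) ^ 2 / n ^ 2 := by
      rw [E_one j (fun e : Ed n => ind (e.1.1 ∈ A ∧ e.1.2 ∈ A)), ← hAc]
      exact E_off hn A
    have a2 : E (fun F : Fin m → Ed n => ind ((F j).1.1 ∈ B ∧ (F j).1.2 ∈ B)) ≤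
        (w : ℝ) ^ 2 / n ^ 2 := by
      rw [E_one j (fun e : Ed n => ind (e.1.1 ∈ B ∧ e.1.2 ∈ B))]
      have := E_off hn B
      rwa [hBc] at this
    have a3 : ∑ i ∈ univ.erase j, E (fun F : Fin m → Ed n => ind (CC w (F j) (F i))) ≤
        16 * m * (w : ℝ) ^ 2 / n ^ 3 := by
      have h1 : ∀ i ∈ univ.erase j, E (fun F : Fin m → Ed n => ind (CC w (F j) (F i))) ≤
          16 * (w : ℝ) ^ 2 / (n : ℝ) ^ 3 := by
        intro i hi
        rw [E_two (ne_of_mem_erase hi) (fun e e' => ind (CC w e e'))]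
        exact E_CC hn hw
      refine (sum_le_card_nsmul _ _ _ h1).trans ?_
      rw [nsmul_eq_mul]
      have h2 : ((univ.erase j).card : ℝ) ≤ m := by
        have := card_le_univ (univ.erase j)
        rw [Fintype.card_fin] at this
        exact_mod_cast this
      have h3 : 0 ≤ 16 * (w : ℝ) ^ 2 / (n : ℝ) ^ 3 := by positivity
      refine (mul_le_mul_of_nonneg_right h2 h3).trans (le_of_eq ?_)
      ring
    linarith
  refine (sum_le_card_nsmul _ _ _ fun j _ => hj j).trans ?_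
  rw [nsmul_eq_mul, card_univ, Fintype.card_fin]

end Pool.Agent.H31.CR
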